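import Pool.Agent.Helper227_Tow.Main

/-!
# Numbers of a field of transcendence degree one whose exponentials lie in the field

`z` of degree at most `D` and `e ^ (L z)` of degree at most `T` in a field `F`: at most
`(2 T + 1) ^ (8 D - 2)` classes modulo the `l` with `e ^ (L l)` algebraic, and at most
`(2 T + 1) ^ (4 D)` classes if `L` is algebraic over `F`.
-/

set_option autoImplicit false

namespace Pool.Agent.Helper227_Sch

open IntermediateField Module
open Pool.Agent.Helper227_Tow (pow_le)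

/-- the group of all `l` for which `e ^ (L l)` is an algebraic number -/
def logs (L : ℂ) : AddSubgroup ℂ where
  carrier := {l | IsAlgebraic ℚ (Complex.exp (L * l))}
  zero_mem' := by
    show IsAlgebraic ℚ (Complex.exp (L * 0))
    rw [mul_zero, Complex.exp_zero]
    exact isAlgebraic_one
  add_mem' := by
    intro a b ha hb
    show IsAlgebraic ℚ (Complex.exp (L * (a + b)))
    rw [mul_add, Complex.exp_add]
    exact IsAlgebraic.mul ha hb
  neg_mem' := by
    intro a ha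
    show IsAlgebraic ℚ (Complex.exp (L * -a))
    rw [mul_neg, Complex.exp_neg]
    exact IsAlgebraic.inv ha

theorem mem_logs {L l : ℂ} : l ∈ logs L ↔ IsAlgebraic ℚ (Complex.exp (L * l)) := Iff.rfl

/-- the number `x` lies in the field `F` and `[F : ℚ(x)] ≤ n` -/
def DegLE (F : IntermediateField ℚ ℂ) (n : ℕ) (x : ℂ) : Prop :=
  ∃ y : F, (y : ℂ) = x ∧ FiniteDimensional ℚ⟮y⟯ F ∧ finrank ℚ⟮y⟯ F ≤ n

/-- the numbers `z` such that `z` and `e ^ (L z)` lie in `F` and have degrees at most `D` and `T` -/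
def pts (L : ℂ) (F : IntermediateField ℚ ℂ) (D T : ℕ) : Set ℂ :=
  {z | DegLE F D z ∧ DegLE F T (Complex.exp (L * z))}

section

variable {F : IntermediateField ℚ ℂ}

theorem count1 {L : ℂ} (hL : L ≠ 0) (hLF : IsAlgebraic F L) (htr : ¬ Algebra.IsAlgebraic ℚ F)
    {D N : ℕ} (z : Fin N → F) (hz : LinearIndependent ℚ z)
    (hf : ∀ i, FiniteDimensional ℚ⟮z i⟯ F) (hD : ∀ i, finrank ℚ⟮z i⟯ F ≤ D)
    (he : ∀ i, IsAlgebraic F (Complex.exp (L * z i))) : N ≤ 4 * D := by
  rcases Nat.eq_zero_or_pos N with h0 | h0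
  · omega
  have h1 := Pool.Agent.W243.TD.deg_1 hL z hz hf htr he hLF ⟨0, h0⟩
  have h2 : ∑ i, finrank ℚ⟮z i⟯ F ≤ N * D := by
    calc ∑ i, finrank ℚ⟮z i⟯ F ≤ ∑ _i : Fin N, D := Finset.sum_le_sum fun i _ => hD i
      _ = N * D := by rw [Finset.sum_const, Finset.card_univ, Fintype.card_fin, smul_eq_mul]
  have h3 := hD ⟨0, h0⟩
  by_contra hcon
  push Not at hcon
  obtain ⟨M, rfl⟩ : ∃ M, N = M + 1 := ⟨N - 1, by omega⟩
  have h4 : 4 * D ≤ M := by omega
  nlinarith

theorem count2 {L : ℂ} (hL : L ≠ 0) (htr : ¬ Algebra.IsAlgebraic ℚ F)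
    {D N : ℕ} (z : Fin N → F) (hz : LinearIndependent ℚ z)
    (hf : ∀ i, FiniteDimensional ℚ⟮z i⟯ F) (hD : ∀ i, finrank ℚ⟮z i⟯ F ≤ D)
    (he : ∀ i, IsAlgebraic F (Complex.exp (L * z i))) : N ≤ 8 * D - 2 := by
  rcases Nat.eq_zero_or_pos N with h0 | h0
  · omega
  have h1 := Pool.Agent.W243.TD.deg_L hL z hz hf htr he ⟨0, h0⟩
  have h2 : ∑ i, finrank ℚ⟮z i⟯ F ≤ N * D := by
    calc ∑ i, finrank ℚ⟮z i⟯ F ≤ ∑ _i : Fin N, D := Finset.sum_le_sum fun i _ => hD i
      _ = N * D := by rw [Finset.sum_const, Finset.card_univ, Fintype.card_fin, smul_eq_mul]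
  have h3 := hD ⟨0, h0⟩
  by_contra hcon
  push Not at hcon
  have h4 : 8 * D ≤ N + 1 := by omega
  nlinarith

/-- a tower of exponentials -/
theorem exp_mem_span {L : ℂ} {S : Set F} (hS : ∀ z ∈ S, Complex.exp (L * (z : ℂ)) ∈ F) {a : F}
    (ha : a ∈ Submodule.span ℤ S) : Complex.exp (L * (a : ℂ)) ∈ F := by
  induction ha using Submodule.span_induction with
  | mem x hx => exact hS x hx
  | zero =>
    show Complex.exp (L * ((0 : F) : ℂ)) ∈ F
    rw [ZeroMemClass.coe_zero, mul_zero, Complex.exp_zero]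
    exact one_mem F
  | add x y _ _ hx hy =>
    rw [AddMemClass.coe_add, mul_add, Complex.exp_add]
    exact mul_mem hx hy
  | smul n x _ hx =>
    have h1 : L * ((n • x : F) : ℂ) = (n : ℂ) * (L * (x : ℂ)) := by
      rw [zsmul_eq_mul]
      push_cast
      ring
    rw [h1, Complex.exp_int_mul]
    exact zpow_mem hx n

/-- **The number of classes modulo algebraic numbers.** -/
theorem classes3 {L : ℂ} {R T : ℕ} (S : Finset F) (y : F → F)
    (hy : ∀ z ∈ S, ((y z : F) : ℂ) = Complex.exp (L * (z : ℂ)))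
    (hR : ∀ (N : ℕ) (f : Fin N → F), (∀ i, f i ∈ S) → LinearIndependent ℚ f → N ≤ R)
    (hf' : ∀ z ∈ S, FiniteDimensional ℚ⟮y z⟯ F) (hD' : ∀ z ∈ S, finrank ℚ⟮y z⟯ F ≤ T)
    (hp : ∀ z ∈ S, ∀ w ∈ S, z ≠ w → Transcendental ℚ (y z / y w)) :
    S.card ≤ (2 * T + 1) ^ R := by
  classical
  set A : Submodule ℤ F := Submodule.span ℤ (S : Set F) with hA
  have : Module.Finite ℤ A := Module.Finite.iff_fg.2 (Submodule.fg_span S.finite_toSet)
  have : Module.Free ℤ A := Module.free_of_finite_type_torsion_free'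
  let b := Module.finBasis ℤ A
  set n := finrank ℤ A with hn
  -- the rank
  have hn4 : n ≤ R := by
    have hb : LinearIndependent ℚ (fun i => ((b i : A) : F)) := by
      rw [← LinearIndependent.iff_fractionRing ℤ ℚ]
      exact b.linearIndependent.map' A.subtype (LinearMap.ker_eq_bot.2 A.injective_subtype)
    obtain ⟨f, hf1, hf2, hf3⟩ := Submodule.exists_fun_fin_finrank_span_eq ℚ (S : Set F)
    have h1 : finrank ℚ (Submodule.span ℚ (S : Set F)) ≤ R := hR _ f hf1 hf3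
    have : FiniteDimensional ℚ (Submodule.span ℚ (S : Set F)) :=
      FiniteDimensional.span_of_finite ℚ S.finite_toSet
    have hmem : ∀ i, ((b i : A) : F) ∈ Submodule.span ℚ (S : Set F) := by
      intro i
      have h2 : ((b i : A) : F) ∈ Submodule.span ℤ (S : Set F) := (b i).2
      exact Submodule.span_subset_span ℤ ℚ (S : Set F) h2
    have hb2 : LinearIndependent ℚ
        (fun i => (⟨((b i : A) : F), hmem i⟩ : Submodule.span ℚ (S : Set F))) := by
      rw [← LinearMap.linearIndependent_iff (Submodule.span ℚ (S : Set F)).subtype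
        (LinearMap.ker_eq_bot.2 (Submodule.injective_subtype _))]
      exact hb
    have h3 := hb2.fintype_card_le_finrank
    rw [Fintype.card_fin] at h3
    exact h3.trans h1
  refine le_trans ?_ (Nat.pow_le_pow_right (by omega) hn4)
  by_contra hcon
  push Not at hcon
  set m := 2 * T + 1 with hm
  have : NeZero m := ⟨by omega⟩
  let g : F → (Fin n → ZMod m) := fun z => fun i =>
    if h : z ∈ A then ((b.repr ⟨z, h⟩ i : ℤ) : ZMod m) else 0
  obtain ⟨z, hz, w, hw, hzw, hg⟩ := Finset.exists_ne_map_eq_of_card_lt_of_maps_to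
    (s := S) (t := (Finset.univ : Finset (Fin n → ZMod m))) (f := g) (by
      rw [Finset.card_univ, Fintype.card_fun, ZMod.card, Fintype.card_fin]
      exact hcon) (fun _ _ => Finset.mem_univ _)
  have hzA : z ∈ A := Submodule.subset_span hz
  have hwA : w ∈ A := Submodule.subset_span hw
  have hdiv : ∀ i, (m : ℤ) ∣ b.repr ⟨z, hzA⟩ i - b.repr ⟨w, hwA⟩ i := by
    intro i
    have h1 := congrFun hg i
    simp only [g, dif_pos hzA, dif_pos hwA] at h1
    exact (ZMod.intCast_eq_intCast_iff_dvd_sub _ _ m).1 h1.symm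
  choose q hq using hdiv
  set a : A := ∑ i, q i • b i with ha
  have hza : (⟨z, hzA⟩ : A) = ⟨w, hwA⟩ + (m : ℤ) • a := by
    have e1 := b.sum_repr (⟨z, hzA⟩ : A)
    have e2 := b.sum_repr (⟨w, hwA⟩ : A)
    have e3 : ∑ i, b.repr ⟨z, hzA⟩ i • b i = ∑ i, b.repr ⟨w, hwA⟩ i • b i + (m : ℤ) • a := by
      rw [ha, Finset.smul_sum, ← Finset.sum_add_distrib]
      refine Finset.sum_congr rfl fun i _ => ?_
      rw [smul_smul, ← add_smul, ← hq i]
      congr 1
      ring
    rw [e1, e2] at e3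
    exact e3
  have hza' : z = w + (m : ℤ) • (a : F) := congrArg Subtype.val hza
  have hSF : ∀ z ∈ (S : Set F), Complex.exp (L * (z : ℂ)) ∈ F := by
    intro z hz
    rw [← hy z hz]
    exact (y z).2
  have haF : Complex.exp (L * ((a : F) : ℂ)) ∈ F := exp_mem_span hSF a.2
  set u : F := ⟨Complex.exp (L * ((a : F) : ℂ)), haF⟩ with hu
  have hyw0 : y w ≠ 0 := by
    intro h0
    have h1 := hy w hw
    rw [h0, ZeroMemClass.coe_zero] at h1
    exact (Complex.exp_ne_zero _) h1.symm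
  have hrel : y z = u ^ m * y w := by
    apply Subtype.ext
    rw [hy z hz, MulMemClass.coe_mul, SubmonoidClass.coe_pow, hy w hw, hu]
    show Complex.exp (L * (z : ℂ)) = Complex.exp (L * ((a : F) : ℂ)) ^ m * Complex.exp (L * (w : ℂ))
    rw [← Complex.exp_nat_mul, ← Complex.exp_add]
    congr 1
    have h1 : ((z : F) : ℂ) = ((w + (m : ℤ) • (a : F) : F) : ℂ) := congrArg _ hza'
    rw [h1]
    have h2 : (((m : ℤ) • (a : F) : F) : ℂ) = (m : ℂ) * ((a : F) : ℂ) := by
      rw [zsmul_eq_mul]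
      push_cast
      rfl
    rw [AddMemClass.coe_add, h2]
    ring
  have hutr : Transcendental ℚ u := by
    intro h1
    apply hp z hz w hw hzw
    rw [hrel, mul_div_assoc, div_self hyw0, mul_one]
    exact h1.pow m
  have := pow_le hutr hyw0 hrel (hf' z hz) (hD' z hz) (hf' w hw) (hD' w hw)
  omega

theorem card_le {L : ℂ} {D T R : ℕ} (hR : ¬ Algebra.IsAlgebraic ℚ F →
      ∀ (N : ℕ) (z : Fin N → F), LinearIndependent ℚ z → (∀ i, FiniteDimensional ℚ⟮z i⟯ F) →
      (∀ i, finrank ℚ⟮z i⟯ F ≤ D) → (∀ i, IsAlgebraic F (Complex.exp (L * z i))) → N ≤ R)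
    (J : Finset ℂ) (hJ : ∀ z ∈ J, z ∈ pts L F D T)
    (hp : ∀ z ∈ J, ∀ w ∈ J, z ≠ w → z - w ∉ logs L) : J.card ≤ (2 * T + 1) ^ R := by
  classical
  by_cases htr : Algebra.IsAlgebraic ℚ F
  · -- the exponentials are algebraic
    have hal : ∀ z ∈ J, z ∈ logs L := by
      intro z hz
      obtain ⟨y, hy, -⟩ := (hJ z hz).2
      rw [mem_logs, ← hy]
      exact (htr.isAlgebraic y).algebraMap (A := ℂ)
    have h1 : J.card ≤ 1 := by
      rw [Finset.card_le_one]
      intro z hz w hw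
      by_contra hzw
      exact hp z hz w hw hzw (sub_mem (hal z hz) (hal w hw))
    exact h1.trans (Nat.one_le_pow _ _ (by omega))
  · have h1 : ∀ z ∈ J, ∃ x y : F, (x : ℂ) = z ∧ (y : ℂ) = Complex.exp (L * z) ∧
        FiniteDimensional ℚ⟮x⟯ F ∧ finrank ℚ⟮x⟯ F ≤ D ∧ FiniteDimensional ℚ⟮y⟯ F ∧
        finrank ℚ⟮y⟯ F ≤ T := by
      intro z hz
      obtain ⟨⟨x, hx1, hx2, hx3⟩, ⟨y, hy1, hy2, hy3⟩⟩ := hJ z hz
      exact ⟨x, y, hx1, hy1, hx2, hx3, hy2, hy3⟩
    have h2 : ∀ z : ℂ, ∃ p : F × F, z ∈ J → (p.1 : ℂ) = z ∧ (p.2 : ℂ) = Complex.exp (L * z) ∧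
        FiniteDimensional ℚ⟮p.1⟯ F ∧ finrank ℚ⟮p.1⟯ F ≤ D ∧ FiniteDimensional ℚ⟮p.2⟯ F ∧
        finrank ℚ⟮p.2⟯ F ≤ T := by
      intro z
      by_cases hz : z ∈ J
      · obtain ⟨x, y, h⟩ := h1 z hz
        exact ⟨(x, y), fun _ => h⟩
      · exact ⟨(0, 0), fun h => absurd h hz⟩
    choose p hp' using h2
    have hinj : Set.InjOn (fun z => (p z).1) (J : Set ℂ) := by
      intro z hz w hw hzw
      have e1 := (hp' z hz).1
      have e2 := (hp' w hw).1
      have e3 : (p z).1 = (p w).1 := hzw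
      rw [← e1, ← e2, e3]
    have hcard : (J.image fun z => (p z).1).card = J.card := Finset.card_image_of_injOn hinj
    rw [← hcard]
    have hrec : ∀ x ∈ J.image (fun z => (p z).1), (x : ℂ) ∈ J ∧ (p (x : ℂ)).1 = x := by
      intro x hx
      obtain ⟨z, hz, rfl⟩ := Finset.mem_image.1 hx
      have e1 := (hp' z hz).1
      rw [e1]
      exact ⟨hz, rfl⟩
    refine classes3 (L := L) (J.image fun z => (p z).1) (fun x => (p (x : ℂ)).2) ?_ ?_ ?_ ?_ ?_
    · intro x hx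
      exact (hp' _ (hrec x hx).1).2.1
    · intro N f hf hli
      refine hR htr N f hli (fun i => ?_) (fun i => ?_) (fun i => ?_)
      · have h3 := (hp' _ (hrec _ (hf i)).1).2.2.1
        rwa [(hrec _ (hf i)).2] at h3
      · have h3 := (hp' _ (hrec _ (hf i)).1).2.2.2.1
        rwa [(hrec _ (hf i)).2] at h3
      · rw [← (hp' _ (hrec _ (hf i)).1).2.1]
        exact isAlgebraic_algebraMap (R := F) (A := ℂ) _
    · intro x hx
      exact (hp' _ (hrec x hx).1).2.2.2.2.1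
    · intro x hx
      exact (hp' _ (hrec x hx).1).2.2.2.2.2
    · intro x hx w hw hxw halg
      have hne : (x : ℂ) ≠ (w : ℂ) := fun h => hxw (Subtype.ext h)
      refine hp _ (hrec x hx).1 _ (hrec w hw).1 hne ?_
      have e1 := (hp' _ (hrec x hx).1).2.1
      have e2 := (hp' _ (hrec w hw).1).2.1
      have h4 : IsAlgebraic ℚ (((p (x : ℂ)).2 / (p (w : ℂ)).2 : F) : ℂ) :=
        halg.algebraMap (A := ℂ)
      rw [mem_logs, mul_sub, Complex.exp_sub, ← e1, ← e2]
      exact h4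

end

/-- the classes modulo `logs L` -/
theorem main {L : ℂ} {F : IntermediateField ℚ ℂ} {D T R : ℕ} (hR : ¬ Algebra.IsAlgebraic ℚ F →
      ∀ (N : ℕ) (z : Fin N → F), LinearIndependent ℚ z → (∀ i, FiniteDimensional ℚ⟮z i⟯ F) →
      (∀ i, finrank ℚ⟮z i⟯ F ≤ D) → (∀ i, IsAlgebraic F (Complex.exp (L * z i))) → N ≤ R) :
    ((QuotientAddGroup.mk : ℂ → ℂ ⧸ logs L) '' pts L F D T).encard ≤
      (((2 * T + 1) ^ R : ℕ) : ℕ∞) := by
  classical
  have key : ∀ J : Finset (ℂ ⧸ logs L), (J : Set (ℂ ⧸ logs L)) ⊆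
      (QuotientAddGroup.mk : ℂ → ℂ ⧸ logs L) '' pts L F D T → J.card ≤ (2 * T + 1) ^ R := by
    intro J hJ
    have h1 : ∀ c : ℂ ⧸ logs L, ∃ z : ℂ, c ∈ J → z ∈ pts L F D T ∧
        (QuotientAddGroup.mk z : ℂ ⧸ logs L) = c := by
      intro c
      by_cases hc : c ∈ J
      · obtain ⟨z, hz, hzc⟩ := hJ hc
        exact ⟨z, fun _ => ⟨hz, hzc⟩⟩
      · exact ⟨0, fun h => absurd h hc⟩
    choose r hr using h1
    have hinj : Set.InjOn r (J : Set (ℂ ⧸ logs L)) := by
      intro c hc d hd hcd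
      rw [← (hr c hc).2, ← (hr d hd).2, hcd]
    rw [← Finset.card_image_of_injOn hinj]
    refine card_le (F := F) hR (J.image r) ?_ ?_
    · intro z hz
      obtain ⟨c, hc, rfl⟩ := Finset.mem_image.1 hz
      exact (hr c hc).1
    · intro z hz w hw hzw hlog
      obtain ⟨c, hc, rfl⟩ := Finset.mem_image.1 hz
      obtain ⟨d, hd, rfl⟩ := Finset.mem_image.1 hw
      apply hzw
      have h2 : (QuotientAddGroup.mk (r c) : ℂ ⧸ logs L) = QuotientAddGroup.mk (r d) := by
        rw [QuotientAddGroup.eq]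
        have h3 : -(r c) + r d = -(r c - r d) := by ring
        rw [h3]
        exact neg_mem hlog
      rw [(hr c hc).2, (hr d hd).2] at h2
      rw [h2]
  rw [Set.encard_le_coe_iff_finite_ncard_le]
  have hfin : ((QuotientAddGroup.mk : ℂ → ℂ ⧸ logs L) '' pts L F D T).Finite := by
    by_contra hinf
    obtain ⟨J, hJ1, hJ2⟩ := Set.Infinite.exists_subset_card_eq hinf ((2 * T + 1) ^ R + 1)
    have := key J hJ1
    omega
  refine ⟨hfin, ?_⟩
  rw [Set.ncard_eq_toFinset_card _ hfin]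
  exact key _ (fun c hc => (Set.Finite.mem_toFinset hfin).1 hc)

theorem mk_injOn {L : ℂ} {F : IntermediateField ℚ ℂ} (hF : ∀ l ∈ F, l ∈ logs L → l = 0)
    (D T : ℕ) : Set.InjOn (QuotientAddGroup.mk : ℂ → ℂ ⧸ logs L) (pts L F D T) := by
  intro z hz w hw h
  obtain ⟨⟨x, rfl, -⟩, -⟩ := hz
  obtain ⟨⟨y, rfl, -⟩, -⟩ := hw
  rw [QuotientAddGroup.eq] at h
  have h1 := hF (-(x : ℂ) + y) (add_mem (neg_mem x.2) y.2) h
  have h2 : (y : ℂ) - x = 0 := by
    rw [← h1]
    ring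
  exact (sub_eq_zero.1 h2).symm

theorem mainL {L : ℂ} (hL : L ≠ 0) (F : IntermediateField ℚ ℂ) (D T : ℕ) :
    ((QuotientAddGroup.mk : ℂ → ℂ ⧸ logs L) '' pts L F D T).encard ≤
      (((2 * T + 1) ^ (8 * D - 2) : ℕ) : ℕ∞) :=
  main fun htr _ z hz hf hD he => count2 hL htr z hz hf hD he

theorem main1 {L : ℂ} (hL : L ≠ 0) (F : IntermediateField ℚ ℂ) (hLF : IsAlgebraic F L)
    (D T : ℕ) :
    ((QuotientAddGroup.mk : ℂ → ℂ ⧸ logs L) '' pts L F D T).encard ≤
      (((2 * T + 1) ^ (4 * D) : ℕ) : ℕ∞) :=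
  main fun htr _ z hz hf hD he => count1 hL hLF htr z hz hf hD he

end Pool.Agent.Helper227_Sch
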